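import Mathlib
import Pool.Agent.N753.DR.Stm6

/-! # Project PC (helper753): coincidences are rare (helper199) -/

set_option autoImplicit false

namespace Pool.Agent.N199.PC

open NumberField IsDedekindDomain Module Polynomial Pool.Agent.N753.DR

section

variable {K : Type} [Field K] [NumberField K]

lemma bx_fin (m B : ℕ) : (Bx K m B).Finite := by
  classical
  let f : (Fin m → 𝓞 K) → (Fin m → Free.ChooseBasisIndex ℤ (𝓞 K) → ℤ) :=
    fun c j i => (RingOfIntegers.basis K).repr (c j) i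
  have hf : Function.Injective f := by
    intro c c' h
    funext j
    apply (RingOfIntegers.basis K).repr.injective
    ext i
    exact congrFun (congrFun h j) i
  refine Set.Finite.of_finite_image ?_ hf.injOn
  refine (Set.finite_Icc (fun _ _ => -(B : ℤ)) (fun _ _ => (B : ℤ))).subset ?_
  rintro _ ⟨c, hc, rfl⟩
  have h1 : ∀ j i, ((RingOfIntegers.basis K).repr (c j) i).natAbs ≤ B := by
    intro j i
    have h2 : sz (c j) ≤ B := hc j
    exact (Finset.le_sup (f := fun i => ((RingOfIntegers.basis K).repr (c j) i).natAbs)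
      (Finset.mem_univ i)).trans h2
  constructor
  · intro j i
    have := h1 j i
    show -(B : ℤ) ≤ (RingOfIntegers.basis K).repr (c j) i
    omega
  · intro j i
    have := h1 j i
    show (RingOfIntegers.basis K).repr (c j) i ≤ (B : ℤ)
    omega

/-- the polynomial of an algebraic number -/
lemma atH_monic {r : ℕ} {U : ℝ} {p : K[X]} (h : AtH r U p) : p.Monic ∧ p.natDegree = r := by
  obtain ⟨M, _, _, _, x, _, h2, h3, _⟩ := h
  subst h3
  exact ⟨minpoly.monic (Algebra.IsIntegral.isIntegral x), h2⟩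

/-- the vector of coefficients -/
def IsC {r : ℕ} (p : K[X]) (c : Fin (r + 1) → 𝓞 K) : Prop :=
  ∃ l : K, l ≠ 0 ∧ ∀ i, (c i : K) = l * p.coeff i

lemma isC_inj {r : ℕ} {p p' : K[X]} (h : p.Monic ∧ p.natDegree = r)
    (h' : p'.Monic ∧ p'.natDegree = r) {c : Fin (r + 1) → 𝓞 K} (hc : IsC p c) (hc' : IsC p' c) :
    p = p' := by
  obtain ⟨l, hl, h1⟩ := hc
  obtain ⟨l', hl', h1'⟩ := hc'
  have e1 : p.coeff r = 1 := by
    have := h.1.coeff_natDegree
    rwa [h.2] at this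
  have e1' : p'.coeff r = 1 := by
    have := h'.1.coeff_natDegree
    rwa [h'.2] at this
  have e2 : l = l' := by
    have h2 := h1 (Fin.last r)
    have h3 := h1' (Fin.last r)
    rw [Fin.val_last] at h2 h3
    rw [e1, mul_one] at h2
    rw [e1', mul_one] at h3
    exact h2.symm.trans h3
  subst e2
  ext k
  by_cases hk : k < r + 1
  · have h2 := h1 ⟨k, hk⟩
    have h3 := h1' ⟨k, hk⟩
    exact mul_left_cancel₀ hl (h2.symm.trans h3)
  · rw [coeff_eq_zero_of_natDegree_lt (by omega), coeff_eq_zero_of_natDegree_lt (by omega)]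

lemma near_meet {r : ℕ} {F : K[X]} {G : MvPolynomial (Fin (r + 1)) (𝓞 K)} {N₀ : ℕ}
    (hN : N₀ ≠ 0)
    (hG : ∀ (L : Type) [Field L] [NumberField L] [Algebra K L] (x : L) (c : Fin (r + 1) → 𝓞 K),
      ∑ i, algebraMap K L (c i) * x ^ (i : ℕ) = 0 → ∀ w : HeightOneSpectrum (𝓞 L),
      (N₀ : 𝓞 L) ∉ w.asIdeal → w.valuation L x ≤ 1 → w.valuation L (aeval x F) < 1 →
      ∀ p : ℕ, (p : 𝓞 L) ∈ w.asIdeal → Meet G c p)
    {S : Finset ℕ} (hS : N₀ ∈ S) {p : K[X]} (hp : p.natDegree = r) {c : Fin (r + 1) → 𝓞 K}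
    (hc : IsC p c) {q : ℕ} (h : NearP S F p q) : Meet G c q := by
  obtain ⟨M, _, _, _, x, w, h1, h2, h3⟩ := h
  obtain ⟨l, hl, h4⟩ := hc
  refine hG M x c ?_ w (h2.1 N₀ hS hN) h2.2.1 h2.2.2 q h3
  have h5 : ∑ i : Fin (r + 1), algebraMap K M (c i) * x ^ (i : ℕ) =
      algebraMap K M l * aeval x p := by
    rw [aeval_eq_sum_range' (n := r + 1) (by omega), Finset.mul_sum,
      ← Fin.sum_univ_eq_sum_range (fun i => algebraMap K M l * (p.coeff i • x ^ i)) (r + 1)]
    refine Finset.sum_congr rfl fun i _ => ?_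
    rw [h4, map_mul, Algebra.smul_def, mul_assoc]
  rw [h5, ← h1, minpoly.aeval, mul_zero]

lemma red_all (h3 : StmRed) (r : ℕ) (hr : 1 ≤ r) : ∃ C : ℝ, 1 ≤ C ∧ ∀ (U : ℝ) (p : K[X]),
    AtH r U p → ∃ c : Fin (r + 1) → 𝓞 K, IsC p c ∧
      ∀ i, (sz (c i) : ℝ) ≤ C * Real.exp (U / finrank ℚ K) := by
  obtain ⟨_, C, hC, h⟩ := h3 K r hr
  refine ⟨max C 1, le_max_right _ _, ?_⟩
  rintro U p ⟨M, _, _, _, x, h1, h2, h4, h5⟩
  obtain ⟨c, l, hl, h6, _, h7⟩ := h M x h1 h2
  subst h4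
  refine ⟨c, ⟨l, hl, h6⟩, fun i => (h7 i).trans ?_⟩
  refine mul_le_mul (le_max_left _ _) (Real.exp_le_exp.2 ?_) (Real.exp_pos _).le
    (hC.le.trans (le_max_left _ _))
  exact div_le_div_of_nonneg_right h5 (Nat.cast_nonneg _)

lemma box_bd {d T A C : ℝ} (hd : 0 < d) (hA : 1 ≤ A) (hC : C ≤ A) {r B s : ℕ} (hr : 1 ≤ r)
    (hB : A * Real.exp (T / d) ≤ B) (hs : (s : ℝ) ≤ C * Real.exp ((r : ℝ) * T / d)) :
    s ≤ B ^ r := by
  have h1 : C * Real.exp ((r : ℝ) * T / d) ≤ (A * Real.exp (T / d)) ^ r := by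
    rw [mul_pow, mul_div_assoc, Real.exp_nat_mul]
    refine mul_le_mul_of_nonneg_right (hC.trans ?_) (by positivity)
    exact le_self_pow₀ hA (by omega)
  have h2 : (s : ℝ) ≤ (B : ℝ) ^ r :=
    hs.trans (h1.trans (pow_le_pow_left₀ (by positivity) hB r))
  exact_mod_cast h2

/-- powers of `B` and exponentials -/
lemma pow_bd {x D e : ℝ} {B : ℕ} (hD : 1 ≤ D) (h1 : Real.exp x ≤ B) (h2 : (B : ℝ) ≤ D * Real.exp x) :
    (B : ℝ) ^ e ≤ D ^ |e| * Real.exp (e * x) := by
  have hx := Real.exp_pos x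
  have hB : (0 : ℝ) < B := hx.trans_le h1
  obtain ⟨y, hy⟩ : ∃ y, y = (B : ℝ) / Real.exp x := ⟨_, rfl⟩
  have hy1 : 1 ≤ y := by rw [hy, one_le_div hx]; exact h1
  have hy2 : y ≤ D := by rw [hy, div_le_iff₀ hx]; exact h2
  have hBy : (B : ℝ) = y * Real.exp x := by rw [hy, div_mul_cancel₀ _ hx.ne']
  rw [hBy, Real.mul_rpow (by linarith) hx.le, ← Real.exp_mul, mul_comm x e]
  refine mul_le_mul_of_nonneg_right ?_ (Real.exp_pos _).le
  calc y ^ e ≤ y ^ |e| := Real.rpow_le_rpow_of_exponent_le hy1 (le_abs_self e)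
    _ ≤ D ^ |e| := Real.rpow_le_rpow (by linarith) hy2 (abs_nonneg e)

/-- the pairs -/
def Prs (r r' : ℕ) (S : Finset ℕ) (F F' : K[X]) (κ T : ℝ) : Set (K[X] × K[X]) :=
  {q | AtH r (r * T) q.1 ∧ AtH r' (r' * T) q.2 ∧
    ∃ Q : Finset ℕ, (∀ p ∈ Q, p.Prime ∧ NearP S F q.1 p ∧ NearP S F' q.2 p) ∧
      κ * T < ∑ p ∈ Q, Real.log p}

lemma pairs (h1 : StmGcd) (h2 : StmNear) (h3 : StmRed) {r r' : ℕ} (hr : 1 ≤ r) (hr' : 1 ≤ r')
    {F F' : K[X]} (hF : F ≠ 0) (hF' : F' ≠ 0) : ∃ S : Finset ℕ, (∀ p ∈ S, p ≠ 0) ∧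
    ∀ κ : ℝ, 0 < κ → ∃ ν C T₀ : ℝ, 0 < ν ∧ 0 ≤ C ∧ 0 ≤ T₀ ∧ ∀ T : ℝ, T₀ ≤ T →
      ((Prs r r' S F F' κ T).ncard : ℝ) ≤
        C * Real.exp (((r : ℝ) * (r + 1) + (r' : ℝ) * (r' + 1) - ν) * T) := by
  classical
  obtain ⟨G, N, hG, hN, hGN⟩ := h2 K r hr F hF
  obtain ⟨G', N', hG', hN', hGN'⟩ := h2 K r' hr' F' hF'
  refine ⟨{N, N'}, ?_, ?_⟩
  · intro p hp
    rw [Finset.mem_insert, Finset.mem_singleton] at hp
    rcases hp with rfl | rfl
    · exact hN
    · exact hN'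
  intro κ hκ
  obtain ⟨d, hd⟩ : ∃ d : ℝ, d = finrank ℚ K := ⟨_, rfl⟩
  have hd0 : 0 < d := by
    rw [hd]
    exact_mod_cast finrank_pos
  obtain ⟨ν, C, hν, hC⟩ := h1 K (r + 1) (r' + 1) (by omega) (by omega) G G' hG hG' r r' hr hr'
    (κ * d / 2) (by positivity)
  obtain ⟨A1, hA1, hR1⟩ := red_all (K := K) h3 r hr
  obtain ⟨A2, hA2, hR2⟩ := red_all (K := K) h3 r' hr'
  obtain ⟨A, hA, hAA1, hAA2⟩ : ∃ A : ℝ, 1 ≤ A ∧ A1 ≤ A ∧ A2 ≤ A :=
    ⟨max A1 A2, hA1.trans (le_max_left _ _), le_max_left _ _, le_max_right _ _⟩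
  obtain ⟨e, he⟩ : ∃ e : ℝ, e = (finrank ℚ K : ℝ) * ((r : ℕ) * ((r + 1 : ℕ) : ℝ) +
    (r' : ℕ) * ((r' + 1 : ℕ) : ℝ)) - ν := ⟨_, rfl⟩
  have hlog : 0 ≤ Real.log (2 * A) := Real.log_nonneg (by linarith)
  refine ⟨ν / d, |C| * (2 * A) ^ |e|, d * Real.log (2 * A), by positivity, by positivity,
    by positivity, ?_⟩
  intro T hT
  have hT0 : 0 ≤ T := le_trans (by positivity) hT
  obtain ⟨B, hB⟩ : ∃ B : ℕ, B = ⌈A * Real.exp (T / d)⌉₊ := ⟨_, rfl⟩
  have hexp : 1 ≤ Real.exp (T / d) := Real.one_le_exp (by positivity)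
  have hB1 : A * Real.exp (T / d) ≤ B := by
    rw [hB]
    exact Nat.le_ceil _
  have hAe : 1 ≤ A * Real.exp (T / d) := one_le_mul_of_one_le_of_one_le hA hexp
  have hB2 : (B : ℝ) ≤ 2 * A * Real.exp (T / d) := by
    have h4 := Nat.ceil_lt_add_one (show 0 ≤ A * Real.exp (T / d) by positivity)
    rw [← hB] at h4
    linarith
  have hB3 : Real.exp (T / d) ≤ B := by
    refine le_trans ?_ hB1
    exact le_mul_of_one_le_left (Real.exp_pos _).le hA
  have hBn : 1 ≤ B := by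
    have : (1 : ℝ) ≤ B := hexp.trans hB3
    exact_mod_cast this
  choose! cf hcf using hR1 ((r : ℝ) * T)
  choose! cf' hcf' using hR2 ((r' : ℝ) * T)
  have hcard : (Prs r r' {N, N'} F F' κ T).ncard ≤
      {c : (Fin (r + 1) → 𝓞 K) × (Fin (r' + 1) → 𝓞 K) | c.1 ∈ Bx K (r + 1) (B ^ r) ∧
        c.2 ∈ Bx K (r' + 1) (B ^ r') ∧ ∃ Q : Finset ℕ,
          (∀ p ∈ Q, p.Prime ∧ Meet G c.1 p ∧ Meet G' c.2 p) ∧
          κ * d / 2 * Real.log B < ∑ p ∈ Q, Real.log p}.ncard := by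
    refine Set.ncard_le_ncard_of_injOn (fun q : K[X] × K[X] => (cf q.1, cf' q.2)) ?_ ?_ ?_
    · rintro ⟨q, q'⟩ ⟨h4, h5, Q, h6, h7⟩
      refine ⟨fun j => ?_, fun j => ?_, Q, fun p hp => ?_, ?_⟩
      · have h8 := (hcf q h4).2 j
        rw [← hd] at h8
        exact box_bd hd0 hA hAA1 hr hB1 h8
      · have h8 := (hcf' q' h5).2 j
        rw [← hd] at h8
        exact box_bd hd0 hA hAA2 hr' hB1 h8
      · obtain ⟨h8, h9, h10⟩ := h6 p hp
        exact ⟨h8, near_meet hN hGN (Finset.mem_insert_self _ _) (atH_monic h4).2 (hcf q h4).1 h9,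
          near_meet hN' hGN' (Finset.mem_insert_of_mem (Finset.mem_singleton_self _))
            (atH_monic h5).2 (hcf' q' h5).1 h10⟩
      · refine lt_of_le_of_lt ?_ h7
        have h8 : Real.log B ≤ Real.log (2 * A) + T / d := by
          have h9 := Real.log_le_log (by positivity) hB2
          rwa [Real.log_mul (by positivity) (Real.exp_pos _).ne', Real.log_exp] at h9
        calc κ * d / 2 * Real.log B ≤ κ * d / 2 * (Real.log (2 * A) + T / d) :=
              mul_le_mul_of_nonneg_left h8 (by positivity)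
          _ = κ / 2 * (d * Real.log (2 * A)) + κ / 2 * T := by field_simp
          _ ≤ κ / 2 * T + κ / 2 * T := by gcongr
          _ = κ * T := by ring
    · rintro ⟨q, q'⟩ ⟨h4, h5, _⟩ ⟨p, p'⟩ ⟨h6, h7, _⟩ h8
      rw [Prod.mk.injEq] at h8
      refine Prod.ext ?_ ?_
      · have h9 := (hcf p h6).1
        rw [← h8.1] at h9
        exact isC_inj (atH_monic h4) (atH_monic h6) (hcf q h4).1 h9
      · have h9 := (hcf' p' h7).1
        rw [← h8.2] at h9
        exact isC_inj (atH_monic h5) (atH_monic h7) (hcf' q' h5).1 h9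
    · refine ((bx_fin (K := K) (r + 1) (B ^ r)).prod (bx_fin (K := K) (r' + 1) (B ^ r'))).subset ?_
      rintro c ⟨h4, h5, _⟩
      exact ⟨h4, h5⟩
  have hcard' : ((Prs r r' {N, N'} F F' κ T).ncard : ℝ) ≤ C * (B : ℝ) ^ e := by
    rw [he]
    exact le_trans (by exact_mod_cast hcard) (hC B hBn)
  refine hcard'.trans ?_
  have h4 : C * (B : ℝ) ^ e ≤ |C| * ((2 * A) ^ |e| * Real.exp (e * (T / d))) := by
    refine mul_le_mul (le_abs_self C) (pow_bd (by linarith) hB3 hB2) (by positivity)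
      (abs_nonneg C)
  refine h4.trans (le_of_eq ?_)
  rw [← mul_assoc]
  congr 2
  rw [he, ← hd]
  push_cast
  field_simp
  try ring

end

/-- **PC/COIN** -/
theorem t (h1 : StmGcd) (h2 : StmNear) (h3 : StmRed) (h4 : StmCntAll) : StmCoin := by
  classical
  intro K _ _ m r hr i j hij F F' hF hF'
  obtain ⟨S, hS, hSk⟩ := pairs h1 h2 h3 (hr i) (hr j) hF hF'
  refine ⟨S, hS, fun κ hκ => ?_⟩
  obtain ⟨ν, C, T₀, hν, hC, hT₀, hP⟩ := hSk κ hκ
  choose D hD hfin using fun k => h4 K (r k) (hr k)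
  obtain ⟨g, hg⟩ : ∃ g : Fin m → ℝ, ∀ k, g k = (r k : ℝ) * (r k + 1) := ⟨_, fun _ => rfl⟩
  obtain ⟨g', hg'⟩ : ∃ g' : Fin m → ℝ, ∀ k, g' k = if k = i ∨ k = j then 0 else g k :=
    ⟨_, fun _ => rfl⟩
  obtain ⟨D', hD'⟩ : ∃ D' : Fin m → ℝ, ∀ k, D' k = if k = i ∨ k = j then 1 else D k :=
    ⟨_, fun _ => rfl⟩
  have hD'0 : ∀ k, 0 ≤ D' k := by
    intro k
    rw [hD']
    split_ifs
    · norm_num
    · exact (hD k).le
  have hsum : ∑ k, g k = g i + g j + ∑ k, g' k := by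
    have e1 : ∀ k, g k = (if k = i then g k else 0) + (if k = j then g k else 0) + g' k := by
      intro k
      rw [hg']
      by_cases hki : k = i
      · have hkj : k ≠ j := fun h => hij (hki.symm.trans h)
        rw [if_pos hki, if_neg hkj, if_pos (Or.inl hki)]
        ring
      · by_cases hkj : k = j
        · rw [if_neg hki, if_pos hkj, if_pos (Or.inr hkj)]
          ring
        · rw [if_neg hki, if_neg hkj, if_neg (by tauto)]
          ring
    rw [Finset.sum_congr rfl fun k _ => e1 k, Finset.sum_add_distrib, Finset.sum_add_distrib,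
      Finset.sum_ite_eq' Finset.univ i g, Finset.sum_ite_eq' Finset.univ j g,
      if_pos (Finset.mem_univ _), if_pos (Finset.mem_univ _)]
  have hgs : ∑ k, (r k : ℝ) * (r k + 1) = ∑ k, g k := Finset.sum_congr rfl fun k _ => (hg k).symm
  refine ⟨ν, C * ∏ k, D' k + (∏ k, D k) * Real.exp (ν * T₀), hν, fun T hT => ?_⟩
  rw [hgs]
  have hU : ∀ k, 0 ≤ (r k : ℝ) * T := fun k => by positivity
  have hHf : ∀ k, {p : K[X] | AtH (r k) (r k * T) p}.Finite := fun k => (hfin k _ (hU k)).1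
  have hHc : ∀ k, ((hHf k).toFinset.card : ℝ) ≤ D k * Real.exp (g k * T) := by
    intro k
    have h5 := (hfin k _ (hU k)).2
    rw [Set.ncard_eq_toFinset_card _ (hHf k)] at h5
    refine h5.trans (le_of_eq ?_)
    rw [hg]
    congr 2
    ring
  have hfinA : {P : Fin m → K[X] | (∃ Q : Finset ℕ, (∀ p ∈ Q, p.Prime ∧ NearP S F (P i) p ∧
      NearP S F' (P j) p) ∧ κ * T < ∑ p ∈ Q, Real.log p) ∧ HT r T P}.Finite := by
    refine (Set.Finite.pi' hHf).subset ?_
    rintro P ⟨_, hP⟩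
    exact hP
  refine ⟨hfinA, ?_⟩
  rw [Set.ncard_eq_toFinset_card _ hfinA]
  have hpos : 0 < Real.exp ((∑ k, g k - ν) * T) := Real.exp_pos _
  rcases lt_or_ge T T₀ with hlt | hge
  · -- small `T`
    have h5 : hfinA.toFinset ⊆ Fintype.piFinset fun k => (hHf k).toFinset := by
      intro P hP
      rw [Set.Finite.mem_toFinset] at hP
      rw [Fintype.mem_piFinset]
      intro k
      rw [Set.Finite.mem_toFinset]
      exact hP.2 k
    have h6 : (hfinA.toFinset.card : ℝ) ≤ ∏ k, (D k * Real.exp (g k * T)) := by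
      have h7 := Finset.card_le_card h5
      rw [Fintype.card_piFinset] at h7
      calc (hfinA.toFinset.card : ℝ) ≤ ((∏ k, (hHf k).toFinset.card : ℕ) : ℝ) := by
            exact_mod_cast h7
        _ = ∏ k, ((hHf k).toFinset.card : ℝ) := by push_cast; rfl
        _ ≤ _ := Finset.prod_le_prod (fun k _ => Nat.cast_nonneg _) fun k _ => hHc k
    rw [Finset.prod_mul_distrib, ← Real.exp_sum, ← Finset.sum_mul] at h6
    have h8 : Real.exp ((∑ k, g k) * T) ≤ Real.exp (ν * T₀) * Real.exp ((∑ k, g k - ν) * T) := by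
      rw [← Real.exp_add]
      apply Real.exp_le_exp.2
      nlinarith
    have h9 : 0 ≤ ∏ k, D k := Finset.prod_nonneg fun k _ => (hD k).le
    have h10 : 0 ≤ C * ∏ k, D' k := mul_nonneg hC (Finset.prod_nonneg fun k _ => hD'0 k)
    calc (hfinA.toFinset.card : ℝ) ≤ (∏ k, D k) * Real.exp ((∑ k, g k) * T) := h6
      _ ≤ (∏ k, D k) * (Real.exp (ν * T₀) * Real.exp ((∑ k, g k - ν) * T)) :=
          mul_le_mul_of_nonneg_left h8 h9
      _ = ((∏ k, D k) * Real.exp (ν * T₀)) * Real.exp ((∑ k, g k - ν) * T) := by ring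
      _ ≤ _ := by
          refine mul_le_mul_of_nonneg_right ?_ hpos.le
          linarith
  · -- large `T`
    have hEf : (Prs (r i) (r j) S F F' κ T).Finite := by
      refine ((hHf i).prod (hHf j)).subset ?_
      rintro q ⟨h5, h6, _⟩
      exact ⟨h5, h6⟩
    have h5 : hfinA.toFinset ⊆ hEf.toFinset.biUnion fun q => Fintype.piFinset fun k =>
        if k = i then {q.1} else if k = j then {q.2} else (hHf k).toFinset := by
      intro P hP
      rw [Set.Finite.mem_toFinset] at hP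
      obtain ⟨⟨Q, h6, h7⟩, h8⟩ := hP
      rw [Finset.mem_biUnion]
      refine ⟨(P i, P j), ?_, ?_⟩
      · rw [Set.Finite.mem_toFinset]
        exact ⟨h8 i, h8 j, Q, h6, h7⟩
      · rw [Fintype.mem_piFinset]
        intro k
        split_ifs with h9 h10
        · rw [h9]
          exact Finset.mem_singleton_self _
        · rw [h10]
          exact Finset.mem_singleton_self _
        · rw [Set.Finite.mem_toFinset]
          exact h8 k
    have h6 : ∀ q ∈ hEf.toFinset, ((Fintype.piFinset fun k =>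
        if k = i then {q.1} else if k = j then {q.2} else (hHf k).toFinset).card : ℝ) ≤
          (∏ k, D' k) * Real.exp ((∑ k, g' k) * T) := by
      intro q _
      rw [Fintype.card_piFinset, Finset.sum_mul, Real.exp_sum, ← Finset.prod_mul_distrib]
      push_cast
      refine Finset.prod_le_prod (fun k _ => Nat.cast_nonneg _) fun k _ => ?_
      rw [hD', hg']
      by_cases h9 : k = i
      · rw [if_pos h9, if_pos (Or.inl h9), if_pos (Or.inl h9), Finset.card_singleton]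
        simp
      · by_cases h10 : k = j
        · rw [if_neg h9, if_pos h10, if_pos (Or.inr h10), if_pos (Or.inr h10),
            Finset.card_singleton]
          simp
        · rw [if_neg h9, if_neg h10, if_neg (by tauto), if_neg (by tauto)]
          exact hHc k
    have h7 : (hfinA.toFinset.card : ℝ) ≤
        (hEf.toFinset.card : ℝ) * ((∏ k, D' k) * Real.exp ((∑ k, g' k) * T)) := by
      calc (hfinA.toFinset.card : ℝ) ≤ ((hEf.toFinset.biUnion fun q => Fintype.piFinset fun k =>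
            if k = i then {q.1} else if k = j then {q.2} else (hHf k).toFinset).card : ℝ) := by
            exact_mod_cast Finset.card_le_card h5
        _ ≤ ((∑ q ∈ hEf.toFinset, (Fintype.piFinset fun k =>
            if k = i then {q.1} else if k = j then {q.2} else (hHf k).toFinset).card : ℕ) : ℝ) := by
            exact_mod_cast Finset.card_biUnion_le
        _ = ∑ q ∈ hEf.toFinset, ((Fintype.piFinset fun k =>
            if k = i then {q.1} else if k = j then {q.2} else (hHf k).toFinset).card : ℝ) := by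
            push_cast; rfl
        _ ≤ ∑ _q ∈ hEf.toFinset, (∏ k, D' k) * Real.exp ((∑ k, g' k) * T) :=
            Finset.sum_le_sum h6
        _ = _ := by rw [Finset.sum_const, nsmul_eq_mul]
    have h8 := hP T hge
    rw [Set.ncard_eq_toFinset_card _ hEf] at h8
    have h9 : 0 ≤ ∏ k, D' k := Finset.prod_nonneg fun k _ => hD'0 k
    have h10 : 0 ≤ (∏ k, D k) * Real.exp (ν * T₀) :=
      mul_nonneg (Finset.prod_nonneg fun k _ => (hD k).le) (Real.exp_pos _).le
    calc (hfinA.toFinset.card : ℝ) ≤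
          (hEf.toFinset.card : ℝ) * ((∏ k, D' k) * Real.exp ((∑ k, g' k) * T)) := h7
      _ ≤ (C * Real.exp (((r i : ℝ) * (r i + 1) + (r j : ℝ) * (r j + 1) - ν) * T)) *
          ((∏ k, D' k) * Real.exp ((∑ k, g' k) * T)) :=
          mul_le_mul_of_nonneg_right h8 (mul_nonneg h9 (Real.exp_pos _).le)
      _ = (C * ∏ k, D' k) * Real.exp ((∑ k, g k - ν) * T) := by
          rw [hsum, ← hg, ← hg, show (g i + g j + ∑ k, g' k - ν) * T =
            (g i + g j - ν) * T + (∑ k, g' k) * T by ring, Real.exp_add]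
          ring
      _ ≤ _ := by
          refine mul_le_mul_of_nonneg_right ?_ hpos.le
          linarith

end Pool.Agent.N199.PC
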